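import Mathlib

set_option autoImplicit false

namespace Pool.Agent.Results.MP_a9a483_co.DoubleSplit

open SimpleGraph

/-- Berge: no induced odd hole and no induced odd antihole -/
def IsBerge {V : Type} (G : SimpleGraph V) : Prop :=
  ∀ n : ℕ, 4 ≤ n → Odd n → IsEmpty (cycleGraph n ↪g G) ∧ IsEmpty ((cycleGraph n)ᶜ ↪g G)

/-- two distinct vertices such that every chordless path between them has even length -/
def IsEvenPair {V : Type} (G : SimpleGraph V) (x y : V) : Prop :=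
  x ≠ y ∧ ∀ p : G.Walk x y, p.IsPath → p.IsChordless → Even p.length

def EvenPairFree {V : Type} (G : SimpleGraph V) : Prop := ∀ x y, ¬ IsEvenPair G x y

def IsBipartiteLineGraph {V : Type} (G : SimpleGraph V) : Prop :=
  ∃ (W : Type) (H : SimpleGraph W), H.IsBipartite ∧ Nonempty (G ≃g H.lineGraph)

/-- `p` is a chordless path of `G[S]` with one end in `A`, the other in `B`, and no interior vertex
in `A ∪ B` -/
def IsLink {V : Type} (G : SimpleGraph V) (S A B : Set V) {a b : S}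
    (p : (G.induce S).Walk a b) : Prop :=
  p.IsPath ∧ p.IsChordless ∧ a.1 ∈ A ∧ b.1 ∈ B ∧
    ∀ x ∈ p.support, x ≠ a → x ≠ b → x.1 ∉ A ∪ B

/-- the conditions on one side of a 2-join -/
def IsSide {V : Type} (G : SimpleGraph V) (S A B : Set V) : Prop :=
  A ⊆ S ∧ B ⊆ S ∧ Disjoint A B ∧ A.Nonempty ∧ B.Nonempty ∧
    (∃ (a b : S) (p : (G.induce S).Walk a b), IsLink G S A B p) ∧
    ∀ (a b : S) (p : (G.induce S).Walk a b), IsLink G S A B p →
      IsEmpty (G.induce S ≃g p.toSubgraph.coe)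

def HasTwoJoin {V : Type} (G : SimpleGraph V) : Prop :=
  ∃ V₁ V₂ A₁ B₁ A₂ B₂ : Set V, V₁ ∪ V₂ = Set.univ ∧ Disjoint V₁ V₂ ∧
    IsSide G V₁ A₁ B₁ ∧ IsSide G V₂ A₂ B₂ ∧
    ∀ x ∈ V₁, ∀ y ∈ V₂, G.Adj x y ↔ (x ∈ A₁ ∧ y ∈ A₂) ∨ (x ∈ B₁ ∧ y ∈ B₂)

/-! ### general lemmas -/

theorem cyc_adj {n i j : ℕ} (hi : i < n) (hj : j < n) (hij : i < j) (h : j + 1 < n + i) :
    (cycleGraph n).Adj ⟨i, hi⟩ ⟨j, hj⟩ ↔ j = i + 1 := by
  rw [cycleGraph_adj']
  have h1 : ((⟨i, hi⟩ : Fin n) - ⟨j, hj⟩).val = n + i - j :=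
    Fin.coe_sub_iff_lt.mpr (by simpa using hij)
  have h2 : ((⟨j, hj⟩ : Fin n) - ⟨i, hi⟩).val = j - i :=
    Fin.sub_val_of_le (by simpa using hij.le)
  rw [h1, h2]
  omega

theorem noHole {V : Type} (G : SimpleGraph V)
    (h5 : ∀ a b, G.Adj a b → ∀ c, G.Adj b c → ¬ G.Adj a c → ∀ d, G.Adj c d → ¬ G.Adj a d →
      ¬ G.Adj b d → ∀ e, G.Adj d e → G.Adj a e → ¬ G.Adj b e → ¬ G.Adj c e → False)
    (h7 : ∀ a b, G.Adj a b → ∀ c, G.Adj b c ∧ ¬ G.Adj a c ∧ a ≠ c →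
      ∀ d, G.Adj c d ∧ ¬ G.Adj a d ∧ ¬ G.Adj b d →
      ∀ e, G.Adj d e ∧ ¬ G.Adj a e ∧ ¬ G.Adj b e ∧ ¬ G.Adj c e →
      ∀ f, G.Adj e f ∧ ¬ G.Adj a f ∧ ¬ G.Adj b f ∧ ¬ G.Adj c f ∧ ¬ G.Adj d f →
      ∀ g, ¬ (G.Adj f g ∧ ¬ G.Adj b g ∧ ¬ G.Adj c g ∧ ¬ G.Adj d g ∧ ¬ G.Adj e g))
    (n : ℕ) (hn : 4 ≤ n) (ho : Odd n) : IsEmpty (cycleGraph n ↪g G) := by
  refine ⟨fun f => ?_⟩
  by_cases hn5 : n = 5
  · subst hn5
    refine h5 (f 0) (f 1) ?_ (f 2) ?_ ?_ (f 3) ?_ ?_ ?_ (f 4) ?_ ?_ ?_ ?_ <;>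
      rw [f.map_adj_iff] <;> decide
  · have hn7 : 7 ≤ n := by
      obtain ⟨k, rfl⟩ := ho
      omega
    refine h7 (f ⟨0, by omega⟩) (f ⟨1, by omega⟩) ?_ (f ⟨2, by omega⟩) ⟨?_, ?_,
      (fun h => by simpa using f.injective h)⟩ (f ⟨3, by omega⟩) ⟨?_, ?_, ?_⟩
      (f ⟨4, by omega⟩) ⟨?_, ?_, ?_, ?_⟩ (f ⟨5, by omega⟩) ⟨?_, ?_, ?_, ?_, ?_⟩
      (f ⟨6, by omega⟩) ⟨?_, ?_, ?_, ?_, ?_⟩ <;>
      rw [f.map_adj_iff, cyc_adj _ _ (by omega) (by omega)] <;> omega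

theorem epf {V : Type} (G : SimpleGraph V)
    (h : ∀ x y, x = y ∨ G.Adj x y ∨ ∃ a, G.Adj x a ∧ ¬ G.Adj a y ∧
      ∃ b, G.Adj a b ∧ G.Adj b y ∧ ¬ G.Adj x b) : EvenPairFree G := by
  rintro x y ⟨hne, hp⟩
  by_cases hxy : G.Adj x y
  · have := hp hxy.toWalk hxy.isPath_toWalk hxy.isChordless_toWalk
    simp at this
  rcases h x y with h | h | ⟨a, h1, h2, b, h3, h4, h5⟩
  · exact hne h
  · exact hxy h
  · have hxb : x ≠ b := fun e => hxy (e ▸ h4)
    have hay : a ≠ y := fun e => hxy (e ▸ h1)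
    have := hp (Walk.cons h1 (Walk.cons h3 (Walk.cons h4 Walk.nil))) ?_ ?_
    · simp at this
      exact absurd this (by decide)
    · simp [Walk.isPath_def, h1.ne, h3.ne, h4.ne, hxb, hay, hne]
    · rw [Walk.isChordless_iff_forall_mem_edges]
      intro u v hu hv huv
      have h2' : ¬ G.Adj y a := fun h => h2 h.symm
      have h5' : ¬ G.Adj b x := fun h => h5 h.symm
      have hxy' : ¬ G.Adj y x := fun h => hxy h.symm
      simp only [Walk.support_cons, Walk.support_nil, List.mem_cons, List.not_mem_nil,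
        or_false] at hu hv
      rcases hu with rfl | rfl | rfl | rfl <;> rcases hv with rfl | rfl | rfl | rfl <;>
        first
          | exact absurd huv (G.irrefl)
          | contradiction
          | simp

theorem not_line {V : Type} (G : SimpleGraph V) (x a b c : V) (ha : G.Adj x a) (hb : G.Adj x b)
    (hc : G.Adj x c) (hab : ¬ G.Adj a b) (hac : ¬ G.Adj a c) (hbc : ¬ G.Adj b c)
    (nab : a ≠ b) (nac : a ≠ c) (nbc : b ≠ c) : ¬ IsBipartiteLineGraph G := by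
  rintro ⟨W, H, -, ⟨e⟩⟩
  rw [← e.map_adj_iff, lineGraph_adj_iff_exists] at ha hb hc hab hac hbc
  obtain ⟨-, u, hu, hu'⟩ := ha
  obtain ⟨-, v, hv, hv'⟩ := hb
  obtain ⟨-, w, hw, hw'⟩ := hc
  have h1 : u ≠ v := fun h => hab ⟨fun h' => nab (e.injective h'), u, hu', h ▸ hv'⟩
  have h2 : u ≠ w := fun h => hac ⟨fun h' => nac (e.injective h'), u, hu', h ▸ hw'⟩
  have h3 : v ≠ w := fun h => hbc ⟨fun h' => nbc (e.injective h'), v, hv', h ▸ hw'⟩
  have := (Sym2.mem_and_mem_iff h1).mp ⟨hu, hv⟩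
  rw [this, Sym2.mem_iff] at hw
  rcases hw with h | h
  · exact h2 h.symm
  · exact h3 h.symm

theorem side_third {V : Type} (G : SimpleGraph V) (S A B : Set V) (h : IsSide G S A B) :
    ∃ a ∈ A, ∃ b ∈ B, ∃ z ∈ S, z ≠ a ∧ z ≠ b := by
  obtain ⟨-, -, -, -, -, ⟨a, b, p, hp⟩, hno⟩ := h
  refine ⟨a, hp.2.2.1, b, hp.2.2.2.1, ?_⟩
  by_contra hz
  have hall : ∀ x : S, x ∈ p.toSubgraph.verts := by
    intro x
    rw [Walk.mem_verts_toSubgraph]
    by_cases h1 : x = a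
    · rw [h1]; exact p.start_mem_support
    by_cases h2 : x = b
    · rw [h2]; exact p.end_mem_support
    exact absurd ⟨x.1, x.2, fun h => h1 (Subtype.ext h), fun h => h2 (Subtype.ext h)⟩ hz
  have hind : p.toSubgraph.IsInduced := Walk.isInduced_toSubgraph.mpr hp.2.1
  refine (hno a b p hp).false ⟨⟨fun x => ⟨x, hall x⟩, fun x => x.1, fun _ => rfl, fun _ => rfl⟩, ?_⟩
  intro x y
  exact ⟨fun h => p.toSubgraph.adj_sub h, fun h => hind (hall x) (hall y) h⟩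

/-- search over all ways to place the remaining vertices -/
def go {V : Type} (ok : V → V → Bool) : List V → List V → List V → Bool
  | [], L₁, L₂ => decide (L₁.length ≤ 2) || decide (L₂.length ≤ 2)
  | v :: r, L₁, L₂ =>
    (!(L₂.all (fun y => ok v y)) || go ok r (v :: L₁) L₂) &&
    (!(L₁.all (fun x => ok x v)) || go ok r L₁ (v :: L₂))

theorem go_spec {V : Type} (ok : V → V → Bool) (s : V → Bool)
    (hs : ∀ x y, s x = true → s y = false → ok x y = true) :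
    ∀ (r L₁ L₂ : List V), (∀ x ∈ L₁, s x = true) → (∀ y ∈ L₂, s y = false) →
      go ok r L₁ L₂ = true →
      L₁.length + (r.filter (fun x => s x)).length ≤ 2 ∨
        L₂.length + (r.filter (fun x => !s x)).length ≤ 2 := by
  intro r
  induction r with
  | nil => intro L₁ L₂ _ _ h; simpa [go] using h
  | cons v r ih =>
    intro L₁ L₂ h1 h2 h
    simp only [go, Bool.and_eq_true, Bool.or_eq_true, Bool.not_eq_true'] at h
    cases hv : s v with
    | true =>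
      have ha : (L₂.all (fun y => ok v y)) = true :=
        List.all_eq_true.mpr fun y hy => hs v y hv (h2 y hy)
      have hg := h.1.resolve_left (by simp [ha])
      have := ih (v :: L₁) L₂ (by simpa [hv] using h1) h2 hg
      simp only [List.filter_cons, hv, List.length_cons, Bool.not_true, if_true] at this ⊢
      simp only [Bool.false_eq_true, if_false]
      omega
    | false =>
      have ha : (L₁.all (fun x => ok x v)) = true :=
        List.all_eq_true.mpr fun x hx => hs x v (h1 x hx) hv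
      have hg := h.2.resolve_left (by simp [ha])
      have := ih L₁ (v :: L₂) h1 (by simpa [hv] using h2) hg
      simp only [List.filter_cons, hv, List.length_cons, Bool.not_false, if_true] at this ⊢
      simp only [Bool.false_eq_true, if_false]
      omega

def chk (adj : Fin 12 → Fin 12 → Bool) (a₁ b₁ a₂ b₂ : Fin 12) : Bool :=
  go (fun x y => adj x y == ((adj x a₂ && adj a₁ y) || (adj x b₂ && adj b₁ y)))
    ((List.finRange 12).filter (fun z => z != a₁ && z != b₁ && z != a₂ && z != b₂))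
    [a₁, b₁] [a₂, b₂]

theorem no2join (G : SimpleGraph (Fin 12)) (adj : Fin 12 → Fin 12 → Bool)
    (hG : ∀ x y, G.Adj x y ↔ adj x y = true)
    (h : ∀ a₁ a₂, adj a₁ a₂ = true → ∀ b₁, adj b₁ a₂ = false → ∀ b₂, adj b₁ b₂ = true →
      adj a₁ b₂ = false → chk adj a₁ b₁ a₂ b₂ = true) : ¬ HasTwoJoin G := by
  classical
  rintro ⟨V₁, V₂, A₁, B₁, A₂, B₂, hU, hD, hs1, hs2, hc⟩
  obtain ⟨a₁, ha₁, b₁, hb₁, z₁, hz₁, n1, n2⟩ := side_third G _ _ _ hs1
  obtain ⟨a₂, ha₂, b₂, hb₂, z₂, hz₂, n3, n4⟩ := side_third G _ _ _ hs2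
  obtain ⟨sA₁, sB₁, d₁, -⟩ := hs1
  obtain ⟨sA₂, sB₂, d₂, -⟩ := hs2
  rw [Set.disjoint_left] at hD d₁ d₂
  have hV : ∀ y, y ∉ V₁ → y ∈ V₂ := by
    intro y hy
    have : y ∈ V₁ ∪ V₂ := hU ▸ Set.mem_univ y
    exact this.resolve_left hy
  have e1 : ∀ x ∈ V₁, adj x a₂ = true ↔ x ∈ A₁ := by
    intro x hx
    rw [← hG, hc x hx a₂ (sA₂ ha₂)]
    have := d₂ ha₂
    tauto
  have e2 : ∀ x ∈ V₁, adj x b₂ = true ↔ x ∈ B₁ := by
    intro x hx
    rw [← hG, hc x hx b₂ (sB₂ hb₂)]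
    have : b₂ ∉ A₂ := fun h => d₂ h hb₂
    tauto
  have e3 : ∀ y ∈ V₂, adj a₁ y = true ↔ y ∈ A₂ := by
    intro y hy
    rw [← hG, hc a₁ (sA₁ ha₁) y hy]
    have := d₁ ha₁
    tauto
  have e4 : ∀ y ∈ V₂, adj b₁ y = true ↔ y ∈ B₂ := by
    intro y hy
    rw [← hG, hc b₁ (sB₁ hb₁) y hy]
    have : b₁ ∉ A₁ := fun h => d₁ h hb₁
    tauto
  have hk := h a₁ a₂ ((e1 _ (sA₁ ha₁)).mpr ha₁) b₁
    (by rw [← Bool.not_eq_true, e1 _ (sB₁ hb₁)]; exact fun h => d₁ h hb₁) b₂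
    ((e2 _ (sB₁ hb₁)).mpr hb₁)
    (by rw [← Bool.not_eq_true, e2 _ (sA₁ ha₁)]; exact d₁ ha₁)
  have hsp := go_spec _ (fun x => decide (x ∈ V₁)) ?_ _ _ _ ?_ ?_ hk
  · have m1 : z₁ ∈ (((List.finRange 12).filter
        (fun z => z != a₁ && z != b₁ && z != a₂ && z != b₂)).filter
          (fun x => decide (x ∈ V₁))) := by
      have q1 : z₁ ≠ a₂ := fun h => hD hz₁ (h ▸ sA₂ ha₂)
      have q2 : z₁ ≠ b₂ := fun h => hD hz₁ (h ▸ sB₂ hb₂)
      simp [n1, n2, q1, q2, hz₁]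
    have m2 : z₂ ∈ (((List.finRange 12).filter
        (fun z => z != a₁ && z != b₁ && z != a₂ && z != b₂)).filter
          (fun x => !decide (x ∈ V₁))) := by
      have q1 : z₂ ≠ a₁ := fun h => hD (h ▸ sA₁ ha₁) hz₂
      have q2 : z₂ ≠ b₁ := fun h => hD (h ▸ sB₁ hb₁) hz₂
      have q3 : z₂ ∉ V₁ := fun h => hD h hz₂
      simp [n3, n4, q1, q2, q3]
    have l1 := List.length_pos_of_mem m1
    have l2 := List.length_pos_of_mem m2
    simp only [List.length_cons, List.length_nil] at hsp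
    omega
  · intro x y hx hy
    have hx' : x ∈ V₁ := by simpa using hx
    have hy' : y ∈ V₂ := hV y (by simpa using hy)
    rw [beq_iff_eq, Bool.eq_iff_iff]
    simp only [Bool.or_eq_true, Bool.and_eq_true]
    rw [e1 x hx', e2 x hx', e3 y hy', e4 y hy', ← hG, hc x hx' y hy']
  · intro x hx
    simp only [List.mem_cons, List.not_mem_nil, or_false] at hx
    rcases hx with rfl | rfl
    · simpa using sA₁ ha₁
    · simpa using sB₁ hb₁
  · intro y hy
    simp only [List.mem_cons, List.not_mem_nil, or_false] at hy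
    rcases hy with rfl | rfl
    · simpa using fun h => hD h (sA₂ ha₂)
    · simpa using fun h => hD h (sB₂ hb₂)

/-! ### the double split graph on `6 + 6` vertices -/

def row (x : Fin 12) : ℕ :=
  [1346, 2689, 2376, 1668, 1632, 2448, 3861, 3882, 3301, 3290, 985, 998].getD x.val 0

def adj (x y : Fin 12) : Bool := (row x).testBit y.val

def adj' (x y : Fin 12) : Bool := x != y && !adj x y

theorem adj_symm : ∀ x y, adj x y = true → adj y x = true := by decide +kernel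

theorem adj_irrefl : ∀ x, ¬ adj x x = true := by decide +kernel

def G : SimpleGraph (Fin 12) where
  Adj x y := adj x y = true
  symm := ⟨adj_symm⟩
  loopless := ⟨adj_irrefl⟩

instance : DecidableRel G.Adj := fun x y => inferInstanceAs (Decidable (adj x y = true))

theorem hG' (x y : Fin 12) : Gᶜ.Adj x y ↔ adj' x y = true := by
  rw [compl_adj]
  simp [adj', G]

set_option synthInstance.maxSize 4096 in
theorem hole1 (n : ℕ) (hn : 4 ≤ n) (ho : Odd n) : IsEmpty (cycleGraph n ↪g G) :=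
  noHole G (by decide +kernel) (by decide +kernel) n hn ho

set_option synthInstance.maxSize 4096 in
theorem hole2 (n : ℕ) (hn : 4 ≤ n) (ho : Odd n) : IsEmpty (cycleGraph n ↪g Gᶜ) :=
  noHole Gᶜ (by decide +kernel) (by decide +kernel) n hn ho

/-- A finite Berge graph such that it and its complement are even-pair-free, neither is the line
graph of a bipartite graph, and neither has a 2-join. -/
theorem result : ∃ (V : Type) (_ : Finite V) (G : SimpleGraph V), IsBerge G ∧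
    EvenPairFree G ∧ EvenPairFree Gᶜ ∧
    ¬ IsBipartiteLineGraph G ∧ ¬ IsBipartiteLineGraph Gᶜ ∧ ¬ HasTwoJoin G ∧ ¬ HasTwoJoin Gᶜ := by
  refine ⟨Fin 12, inferInstance, G, fun n hn ho => ⟨hole1 n hn ho, ⟨fun f => ?_⟩⟩,
    epf _ (by decide +kernel), epf _ (by decide +kernel), ?_, ?_,
    no2join G adj (fun _ _ => Iff.rfl) (by decide +kernel),
    no2join Gᶜ adj' hG' (by decide +kernel)⟩
  · have := Embedding.complEquiv f
    rw [compl_compl] at this
    exact (hole2 n hn ho).false this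
  · refine not_line G 6 0 2 4 ?_ ?_ ?_ ?_ ?_ ?_ ?_ ?_ ?_ <;> decide +kernel
  · refine not_line Gᶜ 0 7 9 11 ?_ ?_ ?_ ?_ ?_ ?_ ?_ ?_ ?_ <;> decide +kernel

end Pool.Agent.Results.MP_a9a483_co.DoubleSplit
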